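import Pool.Agent.Y159.TQ.Fin
import Pool.Agent.Y542.TQ.Sup
import Pool.Agent.Y971.TQ.Rep
import Pool.Agent.Y159.OR.Base

set_option autoImplicit false

/-!
# Torsion in the class groups of the imaginary quadratic orders of discriminant `a t² + b t + c`

Let `f(t) = a t² + b t + c` be a quadratic polynomial with integer coefficients, `a ≠ 0` and
`b² - 4 a c ≠ 0`.  For the maximal orders `O_d`, `d = f(t) < 0`, the mean value (and the moments of
order `r ≤ k / 5`) of the number of elements of the class group killed by `k` is bounded with the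
exponent `1 / 2 - 1 / (k + 1)` of `|d|`, and similarly for `t` in short intervals.
-/

namespace Pool.Agent.Results.MP_e0c7e8_nt.QuadraticFamilies

open NumberField

/-- The order `ℤ[(d + √d) / 2]` of negative discriminant `d`. -/
noncomputable abbrev Od (d : ℤ) : Subalgebra ℤ ℂ :=
  Algebra.adjoin ℤ ({((d : ℂ) + Complex.I * ((Real.sqrt (-(d : ℝ)) : ℝ) : ℂ)) / 2} : Set ℂ)

/-- `#cl(O_d)[k]`: the number of elements of the class group of `O_d` which are killed by `k`. -/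
noncomputable def tor (k : ℕ) (d : ℤ) : ℕ := Nat.card {x : ClassGroup ↥(Od d) // x ^ k = 1}

/-- `d` is a negative discriminant whose order `O_d` is maximal (integrally closed), that is, `d` is
a negative fundamental discriminant. -/
def NegFund (d : ℤ) : Prop := d < 0 ∧ (d % 4 = 0 ∨ d % 4 = 1) ∧ IsIntegrallyClosed ↥(Od d)

/-- Let `f(t) = a t² + b t + c` with integers `a ≠ 0`, `b`, `c` with `b² - 4 a c ≠ 0`, let `k, r ≥ 1`
be natural numbers and `ε > 0`.  There is a constant `C` such that: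

* for all real numbers `1 ≤ H ≤ N` with `(H N) ^ (3 r / (k + r)) ≤ H` and every finite set `S` of
  integers `t` with `N ≤ |t| ≤ N + H` for which `f(t)` is a negative fundamental discriminant,
  `∑_{t ∈ S} (#cl(O_{f(t)})[k]) ^ r ≤ C N ^ ε H (N / (H N) ^ (1 / (k + r))) ^ r`;
* if `5 r ≤ k`, then for `T ≥ 1` and such `t` with `|t| ≤ T`
  `∑_{t ∈ S} (#cl(O_{f(t)})[k]) ^ r ≤ C T ^ (1 + r - 2 r / (k + r) + ε)`. -/
theorem result (a b c : ℤ) (ha : a ≠ 0) (hdisc : b ^ 2 - 4 * a * c ≠ 0) (k r : ℕ) (hk : 1 ≤ k)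
    (hr : 1 ≤ r) (ε : ℝ) (hε : 0 < ε) : ∃ C : ℝ, 0 < C ∧
    (∀ N H : ℝ, 1 ≤ H → H ≤ N → (H * N) ^ (3 * (r : ℝ) / ((k : ℝ) + r)) ≤ H →
      ∀ S : Finset ℤ, (∀ t ∈ S, NegFund (a * t ^ 2 + b * t + c) ∧
        N ≤ |(t : ℝ)| ∧ |(t : ℝ)| ≤ N + H) →
      ∑ t ∈ S, (tor k (a * t ^ 2 + b * t + c) : ℝ) ^ r ≤
        C * N ^ ε * H * (N / (H * N) ^ (1 / ((k : ℝ) + r))) ^ r) ∧
    (5 * r ≤ k → ∀ T : ℝ, 1 ≤ T →
      ∀ S : Finset ℤ, (∀ t ∈ S, NegFund (a * t ^ 2 + b * t + c) ∧ |(t : ℝ)| ≤ T) →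
      ∑ t ∈ S, (tor k (a * t ^ 2 + b * t + c) : ℝ) ^ r ≤
        C * T ^ (1 + (r : ℝ) - 2 * (r : ℝ) / ((k : ℝ) + r) + ε)) := by
  have hrep := Pool.Agent.Y971.TQ.rep
  have hsup := Pool.Agent.Y542.TQ.sup
  obtain ⟨C1, hC1, h1⟩ :=
    Pool.Agent.Y159.TQ.short_t' hrep hsup a b c ha hdisc k r hk hr ε hε
  have h1' : ∀ N H : ℝ, 1 ≤ H → H ≤ N → (H * N) ^ (3 * (r : ℝ) / ((k : ℝ) + r)) ≤ H →
      ∀ S : Finset ℤ, (∀ t ∈ S, NegFund (a * t ^ 2 + b * t + c) ∧
        N ≤ |(t : ℝ)| ∧ |(t : ℝ)| ≤ N + H) →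
      ∑ t ∈ S, (tor k (a * t ^ 2 + b * t + c) : ℝ) ^ r ≤
        C1 * N ^ ε * H * (N / (H * N) ^ (1 / ((k : ℝ) + r))) ^ r := by
    intro N H hH hHN hc S hS
    obtain ⟨K, F, M, hK⟩ := Pool.Agent.Y159.OR.chooseK (fun t => a * t ^ 2 + b * t + c) S
      (fun t ht => (hS t ht).1)
    have := h1 N H hH hHN hc S K (fun t ht => ⟨(hS t ht).2, (hK t ht).1, (hK t ht).2.1⟩)
    refine le_trans (le_of_eq (Finset.sum_congr rfl fun t ht => ?_)) this
    rw [(hK t ht).2.2 k]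
    rfl
  by_cases hrl : 5 * r ≤ k
  · obtain ⟨C2, hC2, h2⟩ := Pool.Agent.Y159.TQ.full_t hrep hsup a b c ha hdisc k r hr hrl ε hε
    refine ⟨max C1 C2, lt_max_of_lt_left hC1, ?_, ?_⟩
    · intro N H hH hHN hc S hS
      refine (h1' N H hH hHN hc S hS).trans ?_
      have hN : 0 < N := by linarith
      have hH0 : 0 < H := by linarith
      have h0 : 0 ≤ N ^ ε * H * (N / (H * N) ^ (1 / ((k : ℝ) + r))) ^ r := by positivity
      calc C1 * N ^ ε * H * (N / (H * N) ^ (1 / ((k : ℝ) + r))) ^ r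
          = C1 * (N ^ ε * H * (N / (H * N) ^ (1 / ((k : ℝ) + r))) ^ r) := by ring
        _ ≤ max C1 C2 * (N ^ ε * H * (N / (H * N) ^ (1 / ((k : ℝ) + r))) ^ r) := by
            gcongr; exact le_max_left _ _
        _ = _ := by ring
    · intro _ T hT S hS
      obtain ⟨K, F, M, hK⟩ := Pool.Agent.Y159.OR.chooseK (fun t => a * t ^ 2 + b * t + c) S
        (fun t ht => (hS t ht).1)
      have := h2 T hT S K (fun t ht => ⟨(hS t ht).2, (hK t ht).1, (hK t ht).2.1⟩)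
      refine le_trans (le_trans (le_of_eq (Finset.sum_congr rfl fun t ht => ?_)) this) ?_
      · rw [(hK t ht).2.2 k]
        rfl
      · gcongr
        exact le_max_right _ _
  · exact ⟨C1, hC1, h1', fun h => absurd h hrl⟩

end Pool.Agent.Results.MP_e0c7e8_nt.QuadraticFamilies
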