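import Pool.Agent.Y159.QS.Fin
import Pool.Agent.Y159.OR.Base

set_option autoImplicit false

/-!
# Torsion in the class groups of imaginary quadratic orders, on average over short intervals

For the maximal orders `O_d` among the imaginary quadratic orders the mean value (and the moments of
order `r ≤ 2 k / 7`) of the number of elements of the class group killed by `k` is bounded with the
exponent `1 / 2 - 3 / (2 k + 2)`, and similarly for discriminants in short intervals.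
-/

namespace Pool.Agent.Results.MP_e0c7e8_nt.ShortIntervals

open NumberField

/-- The order `ℤ[(d + √d) / 2]` of negative discriminant `d`. -/
noncomputable abbrev Od (d : ℤ) : Subalgebra ℤ ℂ :=
  Algebra.adjoin ℤ ({((d : ℂ) + Complex.I * ((Real.sqrt (-(d : ℝ)) : ℝ) : ℂ)) / 2} : Set ℂ)

/-- `#cl(O_d)[k]`: the number of elements of the class group of `O_d` which are killed by `k`. -/
noncomputable def tor (k : ℕ) (d : ℤ) : ℕ := Nat.card {x : ClassGroup ↥(Od d) // x ^ k = 1}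

/-- `d` is a negative discriminant whose order `O_d` is maximal (integrally closed), that is, `d` is
a negative fundamental discriminant. -/
def NegFund (d : ℤ) : Prop := d < 0 ∧ (d % 4 = 0 ∨ d % 4 = 1) ∧ IsIntegrallyClosed ↥(Od d)

/-- Let `k, r ≥ 1` be natural numbers and `ε > 0`.  There is a constant `C` such that:

* for all real numbers `1 ≤ H ≤ X` with `(H √X) ^ (3 r / (k + r)) ≤ H` and every finite set `S` of
  negative fundamental discriminants with `X ≤ |d| ≤ X + H`,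
  `∑_{d ∈ S} (#cl(O_d)[k]) ^ r ≤ C X ^ ε H (√X / (H √X) ^ (1 / (k + r))) ^ r`;
* if `7 r ≤ 2 k`, then for `X ≥ 1` and negative fundamental discriminants with `|d| ≤ X`
  `∑_{d ∈ S} (#cl(O_d)[k]) ^ r ≤ C X ^ (1 + r / 2 - 3 r / (2 (k + r)) + ε)`. -/
theorem result (k r : ℕ) (hk : 1 ≤ k) (hr : 1 ≤ r) (ε : ℝ) (hε : 0 < ε) : ∃ C : ℝ, 0 < C ∧
    (∀ X H : ℝ, 1 ≤ H → H ≤ X → (H * √X) ^ (3 * (r : ℝ) / ((k : ℝ) + r)) ≤ H →
      ∀ S : Finset ℤ, (∀ d ∈ S, NegFund d ∧ X ≤ |(d : ℝ)| ∧ |(d : ℝ)| ≤ X + H) →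
      ∑ d ∈ S, (tor k d : ℝ) ^ r ≤
        C * X ^ ε * H * (√X / (H * √X) ^ (1 / ((k : ℝ) + r))) ^ r) ∧
    (7 * r ≤ 2 * k → ∀ X : ℝ, 1 ≤ X →
      ∀ S : Finset ℤ, (∀ d ∈ S, NegFund d ∧ |(d : ℝ)| ≤ X) →
      ∑ d ∈ S, (tor k d : ℝ) ^ r ≤
        C * X ^ (1 + (r : ℝ) / 2 - 3 * (r : ℝ) / (2 * ((k : ℝ) + r)) + ε)) := by
  obtain ⟨C1, hC1, h1⟩ := Pool.Agent.Y159.QS.short' k r hk hr ε hε
  have h1' : ∀ X H : ℝ, 1 ≤ H → H ≤ X → (H * √X) ^ (3 * (r : ℝ) / ((k : ℝ) + r)) ≤ H →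
      ∀ S : Finset ℤ, (∀ d ∈ S, NegFund d ∧ X ≤ |(d : ℝ)| ∧ |(d : ℝ)| ≤ X + H) →
      ∑ d ∈ S, (tor k d : ℝ) ^ r ≤
        C1 * X ^ ε * H * (√X / (H * √X) ^ (1 / ((k : ℝ) + r))) ^ r := by
    intro X H hH hHX hc S hS
    obtain ⟨K, F, N, hK⟩ := Pool.Agent.Y159.OR.chooseK (fun d => d) S
      (fun d hd => (hS d hd).1)
    have := h1 X H hH hHX hc S K (fun d hd => ⟨(hS d hd).2, (hK d hd).1, (hK d hd).2.1⟩)
    refine le_trans (le_of_eq (Finset.sum_congr rfl fun d hd => ?_)) this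
    rw [(hK d hd).2.2 k]
    rfl
  by_cases hrk : 7 * r ≤ 2 * k
  · obtain ⟨C2, hC2, h2⟩ := Pool.Agent.Y159.QS.full k r hr hrk ε hε
    refine ⟨max C1 C2, lt_max_of_lt_left hC1, ?_, ?_⟩
    · intro X H hH hHX hc S hS
      refine (h1' X H hH hHX hc S hS).trans ?_
      have hX : 0 < X := by linarith
      have h0 : 0 ≤ X ^ ε * H * (√X / (H * √X) ^ (1 / ((k : ℝ) + r))) ^ r := by positivity
      calc C1 * X ^ ε * H * (√X / (H * √X) ^ (1 / ((k : ℝ) + r))) ^ r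
          = C1 * (X ^ ε * H * (√X / (H * √X) ^ (1 / ((k : ℝ) + r))) ^ r) := by ring
        _ ≤ max C1 C2 * (X ^ ε * H * (√X / (H * √X) ^ (1 / ((k : ℝ) + r))) ^ r) := by
            gcongr; exact le_max_left _ _
        _ = _ := by ring
    · intro _ X hX S hS
      obtain ⟨K, F, N, hK⟩ := Pool.Agent.Y159.OR.chooseK (fun d => d) S
        (fun d hd => (hS d hd).1)
      have := h2 X hX S K (fun d hd => ⟨(hS d hd).2, (hK d hd).1, (hK d hd).2.1⟩)
      refine le_trans (le_trans (le_of_eq (Finset.sum_congr rfl fun d hd => ?_)) this) ?_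
      · rw [(hK d hd).2.2 k]
        rfl
      · gcongr
        exact le_max_right _ _
  · exact ⟨C1, hC1, h1', fun h => absurd h hrk⟩

end Pool.Agent.Results.MP_e0c7e8_nt.ShortIntervals
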