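import Pool.Agent.Y159.TG.Fin
import Pool.Agent.Y542.TQ.Sup
import Pool.Agent.Y495.TG.LS
import Pool.Agent.Y759.TG.Res
import Pool.Agent.Y907.TG.Sm
import Pool.Agent.Y261.TG.Cnt
import Pool.Agent.Y495.TG.Grow
import Pool.Agent.Y159.OR.Base

set_option autoImplicit false

/-!
# Torsion in the class groups of the imaginary quadratic orders of discriminant `f(t)`

Let `f` be a polynomial of degree `n ≥ 1` with integer coefficients which is not a constant times the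
square of a polynomial.  For the maximal orders `O_d`, `d = f(t) < 0`, the mean value (and the moments
of order `r ≤ 2 (k + r) / (3 (n + 1))`) of the number of elements of the class group killed by `k` is
bounded with the exponent `1 / 2 - (n + 1) / (2 n (k + 1))` of `|d|`, and similarly for `t` in short
intervals.
-/

namespace Pool.Agent.Results.MP_e0c7e8_nt.ThinFamilies

open NumberField Polynomial

/-- The order `ℤ[(d + √d) / 2]` of negative discriminant `d`. -/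
noncomputable abbrev Od (d : ℤ) : Subalgebra ℤ ℂ :=
  Algebra.adjoin ℤ ({((d : ℂ) + Complex.I * ((Real.sqrt (-(d : ℝ)) : ℝ) : ℂ)) / 2} : Set ℂ)

/-- `#cl(O_d)[k]`: the number of elements of the class group of `O_d` which are killed by `k`. -/
noncomputable def tor (k : ℕ) (d : ℤ) : ℕ := Nat.card {x : ClassGroup ↥(Od d) // x ^ k = 1}

/-- `d` is a negative discriminant whose order `O_d` is maximal (integrally closed), that is, `d` is
a negative fundamental discriminant. -/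
def NegFund (d : ℤ) : Prop := d < 0 ∧ (d % 4 = 0 ∨ d % 4 = 1) ∧ IsIntegrallyClosed ↥(Od d)

/-- Let `f ∈ ℤ[X]` be of degree `n`, not of the form `c g²` with `c ∈ ℚ` and `g ∈ ℚ[X]`, let `k, r ≥ 1`
be natural numbers and `ε > 0`.  There is a constant `C` such that:

* for all real numbers `1 ≤ H ≤ N` with `(H N ^ n) ^ (3 r / (2 (k + r))) ≤ H` and every finite set `S`
  of integers `t` with `N ≤ |t| ≤ N + H` for which `f(t)` is a negative fundamental discriminant,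
  `∑_{t ∈ S} (#cl(O_{f(t)})[k]) ^ r ≤ C N ^ ε H (√(N ^ n) / (H N ^ n) ^ (1 / (2 (k + r)))) ^ r`;
* if `3 r (n + 1) ≤ 2 (k + r)`, then for `T ≥ 1` and such `t` with `|t| ≤ T`
  `∑_{t ∈ S} (#cl(O_{f(t)})[k]) ^ r ≤ C T ^ (1 + r n / 2 - r (n + 1) / (2 (k + r)) + ε)`. -/
theorem result (f : ℤ[X])
    (hf : ∀ (c : ℚ) (g : ℚ[X]), f.map (Int.castRingHom ℚ) ≠ C c * g ^ 2)
    (k r : ℕ) (hk : 1 ≤ k) (hr : 1 ≤ r) (ε : ℝ) (hε : 0 < ε) : ∃ C : ℝ, 0 < C ∧
    (∀ N H : ℝ, 1 ≤ H → H ≤ N →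
      (H * N ^ f.natDegree) ^ (3 * (r : ℝ) / (2 * ((k : ℝ) + r))) ≤ H →
      ∀ S : Finset ℤ, (∀ t ∈ S, NegFund (f.eval t) ∧ N ≤ |(t : ℝ)| ∧ |(t : ℝ)| ≤ N + H) →
      ∑ t ∈ S, (tor k (f.eval t) : ℝ) ^ r ≤
        C * N ^ ε * H * (√(N ^ f.natDegree) /
          (H * N ^ f.natDegree) ^ (1 / (2 * ((k : ℝ) + r)))) ^ r) ∧
    (3 * r * (f.natDegree + 1) ≤ 2 * (k + r) → ∀ T : ℝ, 1 ≤ T →
      ∀ S : Finset ℤ, (∀ t ∈ S, NegFund (f.eval t) ∧ |(t : ℝ)| ≤ T) →
      ∑ t ∈ S, (tor k (f.eval t) : ℝ) ^ r ≤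
        C * T ^ (1 + (r : ℝ) * f.natDegree / 2 -
          (r : ℝ) * (f.natDegree + 1) / (2 * ((k : ℝ) + r)) + ε)) := by
  have hcnt := Pool.Agent.Y261.TG.cnt Pool.Agent.Y495.TG.ls Pool.Agent.Y759.TG.res
    Pool.Agent.Y907.TG.Sm.sm
  have hgrow := Pool.Agent.Y495.TG.grow
  have hsup := Pool.Agent.Y542.TQ.sup
  obtain ⟨C1, hC1, h1⟩ := Pool.Agent.Y159.TG.short_g' hcnt hgrow hsup f hf k r hk hr ε hε
  have h1' : ∀ N H : ℝ, 1 ≤ H → H ≤ N →
      (H * N ^ f.natDegree) ^ (3 * (r : ℝ) / (2 * ((k : ℝ) + r))) ≤ H →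
      ∀ S : Finset ℤ, (∀ t ∈ S, NegFund (f.eval t) ∧ N ≤ |(t : ℝ)| ∧ |(t : ℝ)| ≤ N + H) →
      ∑ t ∈ S, (tor k (f.eval t) : ℝ) ^ r ≤
        C1 * N ^ ε * H * (√(N ^ f.natDegree) /
          (H * N ^ f.natDegree) ^ (1 / (2 * ((k : ℝ) + r)))) ^ r := by
    intro N H hH hHN hc S hS
    obtain ⟨K, F, M, hK⟩ := Pool.Agent.Y159.OR.chooseK (fun t => f.eval t) S
      (fun t ht => (hS t ht).1)
    have := h1 N H hH hHN hc S K (fun t ht => ⟨(hS t ht).2, (hK t ht).1, (hK t ht).2.1⟩)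
    refine le_trans (le_of_eq (Finset.sum_congr rfl fun t ht => ?_)) this
    rw [(hK t ht).2.2 k]
    rfl
  by_cases hrl : 3 * r * (f.natDegree + 1) ≤ 2 * (k + r)
  · obtain ⟨C2, hC2, h2⟩ := Pool.Agent.Y159.TG.full_g hcnt hgrow hsup f hf k r hk hr hrl ε hε
    refine ⟨max C1 C2, lt_max_of_lt_left hC1, ?_, ?_⟩
    · intro N H hH hHN hc S hS
      refine (h1' N H hH hHN hc S hS).trans ?_
      have hN : 0 < N := by linarith
      have hH0 : 0 < H := by linarith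
      have h0 : 0 ≤ N ^ ε * H * (√(N ^ f.natDegree) /
          (H * N ^ f.natDegree) ^ (1 / (2 * ((k : ℝ) + r)))) ^ r := by positivity
      calc C1 * N ^ ε * H * (√(N ^ f.natDegree) /
          (H * N ^ f.natDegree) ^ (1 / (2 * ((k : ℝ) + r)))) ^ r
          = C1 * (N ^ ε * H * (√(N ^ f.natDegree) /
          (H * N ^ f.natDegree) ^ (1 / (2 * ((k : ℝ) + r)))) ^ r) := by ring
        _ ≤ max C1 C2 * (N ^ ε * H * (√(N ^ f.natDegree) /
          (H * N ^ f.natDegree) ^ (1 / (2 * ((k : ℝ) + r)))) ^ r) := by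
            gcongr; exact le_max_left _ _
        _ = _ := by ring
    · intro _ T hT S hS
      obtain ⟨K, F, M, hK⟩ := Pool.Agent.Y159.OR.chooseK (fun t => f.eval t) S
        (fun t ht => (hS t ht).1)
      have := h2 T hT S K (fun t ht => ⟨(hS t ht).2, (hK t ht).1, (hK t ht).2.1⟩)
      refine le_trans (le_trans (le_of_eq (Finset.sum_congr rfl fun t ht => ?_)) this) ?_
      · rw [(hK t ht).2.2 k]
        rfl
      · gcongr
        exact le_max_right _ _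
  · exact ⟨C1, hC1, h1', fun h => absurd h hrl⟩

end Pool.Agent.Results.MP_e0c7e8_nt.ThinFamilies
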